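import Mathlib
import Pool.Agent.Lib.MP_81f3cc_co.Excess

set_option autoImplicit false

namespace Pool.Agent.Results.MP_81f3cc_co.CodegreeEnergy

open MP81f3cc

/-- Every graph `G` on `n` vertices has, for every `t ≥ 1`, a `+4` spanner with at most
`8 (t^(1/3) n^(4/3) + n Q^(1/5))` edges, where `Q = excess t G` counts the pairs of common
neighbours of the (ordered) pairs of vertices with more than `t` common neighbours. -/
theorem result (t : ℕ) (ht : 1 ≤ t) (n : ℕ) (G : SimpleGraph (Fin n)) :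
    ∃ H : SimpleGraph (Fin n), H ≤ G ∧
      (Nat.card H.edgeSet : ℝ) ≤
        8 * ((t : ℝ) ^ ((1 : ℝ) / 3) * (n : ℝ) ^ ((4 : ℝ) / 3) +
          (n : ℝ) * (excess t G : ℝ) ^ ((1 : ℝ) / 5)) ∧
      ∀ u v : Fin n, H.edist u v ≤ G.edist u v + 4 := by
  classical
  rcases Nat.eq_zero_or_pos n with hn | hn
  · subst hn
    refine ⟨⊥, bot_le, ?_, fun u => u.elim0⟩
    simp
  have hnR : (1 : ℝ) ≤ n := by exact_mod_cast hn
  have htR : (1 : ℝ) ≤ t := by exact_mod_cast ht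
  set a : ℝ := ((t : ℝ) * n) ^ ((1 : ℝ) / 3) with ha
  set Q : ℝ := (excess t G : ℝ) with hQ
  have hQ0 : 0 ≤ Q := by rw [hQ]; positivity
  set b : ℝ := Q ^ ((1 : ℝ) / 5) with hb
  have hb0 : 0 ≤ b := by rw [hb]; positivity
  have htn : (1 : ℝ) ≤ (t : ℝ) * n := by nlinarith
  have ha1 : 1 ≤ a := Real.one_le_rpow htn (by norm_num)
  have ha3 : a ^ 3 = (t : ℝ) * n := by
    rw [ha, ← Real.rpow_natCast, ← Real.rpow_mul (by linarith)]
    norm_num
  have hb5 : b ^ 5 = Q := by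
    rw [hb, ← Real.rpow_natCast, ← Real.rpow_mul hQ0]
    norm_num
  set d : ℕ := ⌈a + b⌉₊ with hd
  have hdab : a + b ≤ d := Nat.le_ceil _
  have hda2 : (d : ℝ) ≤ 2 * (a + b) := by
    have := Nat.ceil_lt_add_one (show 0 ≤ a + b by linarith)
    rw [← hd] at this
    linarith
  have hd0 : 0 < d := by
    rw [hd, Nat.ceil_pos]; linarith
  have hdR : (0 : ℝ) < d := by exact_mod_cast hd0
  obtain ⟨f, hdec, hf⟩ := exists_roots' G t d hd0 ht (by simpa using hn)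
  refine ⟨spanner G d f, spanner_le G d f, ?_, spanner_edist G d f⟩
  have h1 := spanner_card G d f
  rw [← excess_eq] at hf
  simp only [Fintype.card_fin] at hf
  rw [← hQ] at hf
  have h2 : ((Nat.card (spanner G d f).edgeSet : ℕ) : ℝ) ≤
      n * (d + d) + (2 * (t : ℝ) * n ^ 2 / d ^ 2 + 4 * n * √(Q / (d : ℝ) ^ 3)) := by
    have h3 : ((Nat.card (spanner G d f).edgeSet : ℕ) : ℝ) ≤
        ((∑ a : Fin n, (d + d + if Cov G f a then 0 else (hi G d a).card) : ℕ) : ℝ) := by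
      exact_mod_cast h1
    rw [Finset.sum_add_distrib] at h3
    simp only [Finset.sum_const, Finset.card_univ, Fintype.card_fin, smul_eq_mul] at h3
    push_cast at h3 hf
    linarith
  have h4 : 2 * (t : ℝ) * n ^ 2 / d ^ 2 ≤ 2 * (n * a) := by
    rw [div_le_iff₀ (by positivity)]
    calc 2 * (t : ℝ) * n ^ 2 = 2 * n * (t * n) := by ring
      _ = 2 * n * a ^ 3 := by rw [ha3]
      _ = 2 * (n * a) * a ^ 2 := by ring
      _ ≤ 2 * (n * a) * (d : ℝ) ^ 2 := by gcongr; linarith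
  have h5 : √(Q / (d : ℝ) ^ 3) ≤ b := by
    rw [Real.sqrt_le_left hb0, div_le_iff₀ (by positivity), ← hb5]
    calc b ^ 5 = b ^ 2 * b ^ 3 := by ring
      _ ≤ b ^ 2 * (d : ℝ) ^ 3 := by gcongr; linarith
  have h6 : 8 * ((t : ℝ) ^ ((1 : ℝ) / 3) * (n : ℝ) ^ ((4 : ℝ) / 3) + (n : ℝ) * b) =
      8 * (n * (a + b)) := by
    rw [ha, Real.mul_rpow (by linarith) (by linarith)]
    have : (n : ℝ) ^ ((4 : ℝ) / 3) = n * (n : ℝ) ^ ((1 : ℝ) / 3) := by
      rw [show ((4 : ℝ) / 3) = 1 + 1 / 3 by norm_num, Real.rpow_add (by linarith), Real.rpow_one]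
    rw [this]
    ring
  rw [h6]
  have h7 : 4 * n * √(Q / (d : ℝ) ^ 3) ≤ 4 * n * b := by gcongr
  have h8 : (n : ℝ) * (d + d) ≤ 4 * (n * (a + b)) := by nlinarith
  have h9 : 0 ≤ (n : ℝ) * b := by positivity
  have h10 : 0 ≤ (n : ℝ) * a := by positivity
  nlinarith

end Pool.Agent.Results.MP_81f3cc_co.CodegreeEnergy
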