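import Mathlib
import Pool.Agent.Lib.MP_81f3cc_co.Growth

/-!
Additive +4 spanners with C n^(4/3) edges for all graphs without a fixed bipartite subgraph F
all of whose degrees on one side are at most two.
-/

namespace Pool.Agent.Results.MP_81f3cc_co.DegreeTwoSide

theorem result {W : Type} [Fintype W] (F : SimpleGraph W) (A : Set W)
    (hbip : ∀ x y, F.Adj x y → (x ∈ A ↔ y ∉ A))
    (hdeg : ∀ a ∈ A, (F.neighborSet a).ncard ≤ 2) :
    ∃ C : ℝ, ∀ (n : ℕ) (G : SimpleGraph (Fin n)), F.Free G →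
      ∃ H : SimpleGraph (Fin n), H ≤ G ∧
        (Nat.card H.edgeSet : ℝ) ≤ C * (n : ℝ) ^ ((4 : ℝ) / 3) ∧
        ∀ u v : Fin n, H.edist u v ≤ G.edist u v + 4 :=
  Pool.Agent.Lib.MP_81f3cc_co.free_spanner F A hbip hdeg

end Pool.Agent.Results.MP_81f3cc_co.DegreeTwoSide
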