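import Mathlib
import Pool.Agent.Lib.MP_81f3cc_co.Gen

/-!
Additive +4 spanners below the exponent 7/5 for graphs in which every k vertices contain s
vertices with few common neighbours.
-/

namespace Pool.Agent.Results.MP_81f3cc_co.FewCommonNeighbours

theorem result (s k : ℕ) (hs : 2 ≤ s) (hsk : s ≤ k) :
    ∃ C : ℝ, ∀ (n t : ℕ) (G : SimpleGraph (Fin n)), 1 ≤ t →
      (∀ T : Finset (Fin n), T.card = k → ∃ R : Finset (Fin n), R ⊆ T ∧ R.card = s ∧
        Nat.card {y : Fin n // ∀ z ∈ R, G.Adj z y} ≤ t) →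
      ∃ H : SimpleGraph (Fin n), H ≤ G ∧
        (Nat.card H.edgeSet : ℝ) ≤ C * (t : ℝ) ^ ((1 : ℝ) / (5 * s - 4)) * n *
          ((n : ℝ) ^ 2 * Real.log (n + 2)) ^ (((s : ℝ) - 1) / (5 * s - 4)) ∧
        ∀ u v : Fin n, H.edist u v ≤ G.edist u v + 4 :=
  Pool.Agent.Lib.MP_81f3cc_co.gen_spanner s k hs hsk

end Pool.Agent.Results.MP_81f3cc_co.FewCommonNeighbours
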