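import Mathlib
import Pool.Agent.Lib.MP_81f3cc_co.Parity

set_option autoImplicit false

namespace Pool.Agent.Results.MP_81f3cc_co.PlusFive

open MP81f3cc

/-- For every exponent `e` and every `k`: graphs have `+2k` spanners with `O(n^e)` edges if and
only if they have `+(2k+1)` spanners with `O(n^e)` edges, if and only if bipartite graphs do
(with either error). For `e = 4/3`, `k = 2` the first item is the question Q1. -/
theorem result (k : ℕ) (e : ℝ) :
    [SpannerBound e (2 * k), SpannerBound e (2 * k + 1),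
      BipartiteSpannerBound e (2 * k), BipartiteSpannerBound e (2 * k + 1)].TFAE := by
  tfae_have 1 → 2 := by
    rintro ⟨C, hC⟩
    refine ⟨C, fun n G => ?_⟩
    obtain ⟨H, h1, h2, h3⟩ := hC n G
    refine ⟨H, h1, h2, fun u v => (h3 u v).trans ?_⟩
    gcongr
    omega
  tfae_have 2 → 4 := by
    rintro ⟨C, hC⟩
    exact ⟨C, fun n G _ => hC n G⟩
  tfae_have 4 → 3 := by
    rintro ⟨C, hC⟩
    refine ⟨C, fun n G hG => ?_⟩
    obtain ⟨H, h1, h2, h3⟩ := hC n G hG
    exact ⟨H, h1, h2, fun u v => parity G H hG h1 k u v (h3 u v)⟩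
  tfae_have 3 → 1 := double_cover
  tfae_finish

end Pool.Agent.Results.MP_81f3cc_co.PlusFive
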